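import Pool.Agent.Helper77.Tau.Defs

/-!
Basic facts on the space of types and on products.
-/

set_option autoImplicit false

universe u v w

open FirstOrder FirstOrder.Language Filter Topology

namespace Pool.Agent.Helper77.Tau

variable {L : FirstOrder.Language.{u, v}} {M N : Type w} [L.Structure M] [L.Structure N]
  {G : DefGroup L M} {i : M ↪ₑ[L] N}

/-- Truth of a formula at a point of `G(M)`. -/
def At (i : M ↪ₑ[L] N) (g : G.Pts) (φ : L.Formula (Fin G.n ⊕ N)) : Prop :=
  φ.Realize (Sum.elim (fun k => i (g.1 k)) (fun b : N => b))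

theorem mem_ofPt {g : G.Pts} {φ : L.Formula (Fin G.n ⊕ N)} :
    φ ∈ (ofPt g : FS G i).formulas ↔ At i g φ := Iff.rfl

theorem At_not {g : G.Pts} {φ : L.Formula (Fin G.n ⊕ N)} : At i g φ.not ↔ ¬ At i g φ :=
  Formula.realize_not

theorem FS.exists_pt (p : FS G i) (F : Set (L.Formula (Fin G.n ⊕ N))) (hF : F ⊆ p.formulas)
    (hfin : F.Finite) : ∃ g : G.Pts, ∀ φ ∈ F, At i g φ := by
  obtain ⟨x, hx⟩ := p.finSat (insert (G.dom.relabel Sum.inl) F)
    (Set.insert_subset p.concentrated hF) (hfin.insert _)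
  have h1 := hx _ (Set.mem_insert _ _)
  rw [Formula.realize_relabel] at h1
  have h2 : G.dom.Realize x := by
    rw [← i.map_formula]
    exact h1
  exact ⟨⟨x, h2⟩, fun φ hφ => hx φ (Set.mem_insert_of_mem _ hφ)⟩

theorem FS.not_mem_iff (p : FS G i) (φ : L.Formula (Fin G.n ⊕ N)) :
    φ.not ∈ p.formulas ↔ φ ∉ p.formulas := by
  constructor
  · intro h1 h2
    obtain ⟨g, hg⟩ := p.exists_pt {φ, φ.not} (by
      intro ψ hψ
      rcases hψ with rfl | hψ
      · exact h2
      · rw [Set.mem_singleton_iff.1 hψ]; exact h1) (by simp)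
    exact (At_not.1 (hg φ.not (by simp))) (hg φ (by simp))
  · intro h
    exact (p.complete φ).resolve_left h

theorem FS.mem_of_trace (p : FS G i) {φ ψ : L.Formula (Fin G.n ⊕ N)}
    (h : ∀ g : G.Pts, At i g φ → At i g ψ) (hφ : φ ∈ p.formulas) : ψ ∈ p.formulas := by
  by_contra hψ
  rw [← p.not_mem_iff] at hψ
  obtain ⟨g, hg⟩ := p.exists_pt {φ, ψ.not} (by
      intro θ hθ
      rcases hθ with rfl | hθ
      · exact hφ
      · rw [Set.mem_singleton_iff.1 hθ]; exact hψ) (by simp)
  exact (At_not.1 (hg ψ.not (by simp))) (h g (hg φ (by simp)))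

theorem FS.mem_iff_of_trace (p : FS G i) {φ ψ : L.Formula (Fin G.n ⊕ N)}
    (h : ∀ g : G.Pts, At i g φ ↔ At i g ψ) : φ ∈ p.formulas ↔ ψ ∈ p.formulas :=
  ⟨p.mem_of_trace fun g => (h g).1, p.mem_of_trace fun g => (h g).2⟩

/-- The formula saying that `x` and `y` have a product in `G` which satisfies `φ`. -/
noncomputable def prodF (G : DefGroup L M) {β : Type*} (φ : L.Formula (Fin G.n ⊕ β)) :
    L.Formula ((Fin G.n ⊕ Fin G.n) ⊕ β) :=
  Formula.iExs (Fin G.n)
    ((G.dom.relabel (fun k => (Sum.inr k : ((Fin G.n ⊕ Fin G.n) ⊕ β) ⊕ Fin G.n))) ⊓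
      ((G.mul.relabel (Sum.elim (fun k => Sum.inl (Sum.inl (Sum.inl k)))
          (Sum.elim (fun k => Sum.inl (Sum.inl (Sum.inr k))) (fun k => Sum.inr k)))) ⊓
        (φ.relabel (Sum.elim (fun k => Sum.inr k) (fun e => Sum.inl (Sum.inr e))))))

theorem realize_prodF {K : Type*} [L.Structure K] {β : Type*} (φ : L.Formula (Fin G.n ⊕ β))
    (x y : Fin G.n → K) (e : β → K) :
    (prodF G φ).Realize (Sum.elim (Sum.elim x y) e) ↔
      ∃ z : Fin G.n → K, G.dom.Realize z ∧ G.mul.Realize (Sum.elim x (Sum.elim y z)) ∧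
        φ.Realize (Sum.elim z e) := by
  unfold prodF
  rw [Formula.realize_iExs]
  refine exists_congr fun z => ?_
  rw [Formula.realize_inf, Formula.realize_inf, Formula.realize_relabel, Formula.realize_relabel,
    Formula.realize_relabel]
  have h1 : (Sum.elim (Sum.elim (Sum.elim x y) e) z ∘ fun k => Sum.inr k) = z := rfl
  have h2 : (Sum.elim (Sum.elim (Sum.elim x y) e) z ∘
      (Sum.elim (fun k => Sum.inl (Sum.inl (Sum.inl k)))
          (Sum.elim (fun k => Sum.inl (Sum.inl (Sum.inr k))) (fun k => Sum.inr k)))) =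
      Sum.elim x (Sum.elim y z) := by
    funext t
    rcases t with t | t | t <;> rfl
  have h3 : (Sum.elim (Sum.elim (Sum.elim x y) e) z ∘
      (Sum.elim (fun k => Sum.inr k) (fun e => Sum.inl (Sum.inr e)))) = Sum.elim z e := by
    funext t
    rcases t with t | t <;> rfl
  rw [h1, h2, h3]

/-- The product exists in every elementary extension. -/
theorem exists_mul {K : Type*} [L.Structure K] (f : M ↪ₑ[L] K) (x y : Fin G.n → K)
    (hx : G.dom.Realize x) (hy : G.dom.Realize y) :
    ∃ z : Fin G.n → K, G.dom.Realize z ∧ G.mul.Realize (Sum.elim x (Sum.elim y z)) := by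
  let ψ : L.Formula (Fin G.n ⊕ Fin G.n) :=
    Formula.imp (G.dom.relabel Sum.inl ⊓ G.dom.relabel Sum.inr)
      (Formula.iExs (Fin G.n)
        ((G.dom.relabel (fun k => (Sum.inr k : (Fin G.n ⊕ Fin G.n) ⊕ Fin G.n))) ⊓
          (G.mul.relabel (Sum.elim (fun k => Sum.inl (Sum.inl k))
          (Sum.elim (fun k => Sum.inl (Sum.inr k)) (fun k => Sum.inr k))))))
  have key : ∀ {K' : Type _} [L.Structure K'] (x y : Fin G.n → K'),
      ψ.Realize (Sum.elim x y) ↔ (G.dom.Realize x ∧ G.dom.Realize y →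
        ∃ z : Fin G.n → K', G.dom.Realize z ∧ G.mul.Realize (Sum.elim x (Sum.elim y z))) := by
    intro K' _ x y
    simp only [ψ]
    rw [Formula.realize_imp, Formula.realize_inf, Formula.realize_iExs, Formula.realize_relabel,
      Formula.realize_relabel]
    refine imp_congr Iff.rfl (exists_congr fun z => ?_)
    rw [Formula.realize_inf, Formula.realize_relabel, Formula.realize_relabel]
    have h2 : (Sum.elim (Sum.elim x y) z ∘
      (Sum.elim (fun k => Sum.inl (Sum.inl k))
          (Sum.elim (fun k => Sum.inl (Sum.inr k)) (fun k => Sum.inr k)))) =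
      Sum.elim x (Sum.elim y z) := by
      funext t
      rcases t with t | t | t <;> rfl
    rw [h2]
    rfl
  have key' : ∀ (x y : Fin G.n → K),
      ψ.Realize (Sum.elim x y) ↔ (G.dom.Realize x ∧ G.dom.Realize y →
        ∃ z : Fin G.n → K, G.dom.Realize z ∧ G.mul.Realize (Sum.elim x (Sum.elim y z))) := by
    intro x y
    simp only [ψ]
    rw [Formula.realize_imp, Formula.realize_inf, Formula.realize_iExs, Formula.realize_relabel,
      Formula.realize_relabel]
    refine imp_congr Iff.rfl (exists_congr fun z => ?_)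
    rw [Formula.realize_inf, Formula.realize_relabel, Formula.realize_relabel]
    have h2 : (Sum.elim (Sum.elim x y) z ∘
      (Sum.elim (fun k => Sum.inl (Sum.inl k))
          (Sum.elim (fun k => Sum.inl (Sum.inr k)) (fun k => Sum.inr k)))) =
      Sum.elim x (Sum.elim y z) := by
      funext t
      rcases t with t | t | t <;> rfl
    rw [h2]
    rfl
  let Ψ : L.Formula Empty := Formula.iAlls (Fin G.n ⊕ Fin G.n) (ψ.relabel Sum.inr)
  have hM : Ψ.Realize (default : Empty → M) := by
    simp only [Ψ]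
    rw [Formula.realize_iAlls]
    intro t
    rw [Formula.realize_relabel]
    have h1 : ((fun a => Sum.elim (default : Empty → M) t a) ∘ Sum.inr) =
      Sum.elim (t ∘ Sum.inl) (t ∘ Sum.inr) := by
      funext a; rcases a with a | a <;> rfl
    rw [h1, key]
    rintro ⟨h2, h3⟩
    let X : G.Pts := ⟨t ∘ Sum.inl, h2⟩
    let Y : G.Pts := ⟨t ∘ Sum.inr, h3⟩
    exact ⟨(X * Y).1, (X * Y).2, (G.mul_iff X Y (X * Y)).2 rfl⟩
  have hK : Ψ.Realize (default : Empty → K) := by
    have := (f.map_formula Ψ default).2 hM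
    rwa [Unique.eq_default (f ∘ default)] at this
  simp only [Ψ] at hK
  rw [Formula.realize_iAlls] at hK
  have h4 := hK (Sum.elim x y)
  rw [Formula.realize_relabel] at h4
  have h5 : ((fun a => Sum.elim (default : Empty → K) (Sum.elim x y) a) ∘ Sum.inr) =
      Sum.elim x y := rfl
  rw [h5, key'] at h4
  exact h4 ⟨hx, hy⟩

/-- The product of two points of `G(M)`, computed in an elementary extension. -/
theorem mul_unique {K : Type*} [L.Structure K] (f : M ↪ₑ[L] K) (g h : G.Pts) (z : Fin G.n → K)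
    (hz : G.dom.Realize z)
    (hm : G.mul.Realize (Sum.elim (fun k => f (g.1 k)) (Sum.elim (fun k => f (h.1 k)) z))) :
    z = fun k => f ((g * h).1 k) := by
  funext k
  -- the formula `dom z ∧ mul x y z → z_k = w_k`
  let ψ : L.Formula (((Fin G.n ⊕ Fin G.n) ⊕ Fin G.n) ⊕ Fin G.n) :=
    Formula.imp (G.dom.relabel (fun k => Sum.inr k) ⊓
      G.mul.relabel (Sum.elim (fun k => Sum.inl (Sum.inl (Sum.inl k)))
          (Sum.elim (fun k => Sum.inl (Sum.inl (Sum.inr k))) (fun k => Sum.inr k))))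
      (Term.equal (Term.var (Sum.inr k)) (Term.var (Sum.inl (Sum.inr k))))
  let Ψ : L.Formula ((Fin G.n ⊕ Fin G.n) ⊕ Fin G.n) := Formula.iAlls (Fin G.n) ψ
  have key : ∀ {K' : Type w} [L.Structure K'] (x y t z : Fin G.n → K'),
      ψ.Realize (Sum.elim (Sum.elim (Sum.elim x y) t) z) ↔
        (G.dom.Realize z ∧ G.mul.Realize (Sum.elim x (Sum.elim y z)) → z k = t k) := by
    intro K' _ x y t z
    simp only [ψ]
    rw [Formula.realize_imp, Formula.realize_inf, Formula.realize_relabel,
      Formula.realize_relabel, Formula.realize_equal]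
    have h2 : (Sum.elim (Sum.elim (Sum.elim x y) t) z ∘
      (Sum.elim (fun k => Sum.inl (Sum.inl (Sum.inl k)))
          (Sum.elim (fun k => Sum.inl (Sum.inl (Sum.inr k))) (fun k => Sum.inr k)))) =
      Sum.elim x (Sum.elim y z) := by
      funext t
      rcases t with t | t | t <;> rfl
    rw [h2]
    rfl
  have key' : ∀ (x y t z : Fin G.n → K),
      ψ.Realize (Sum.elim (Sum.elim (Sum.elim x y) t) z) ↔
        (G.dom.Realize z ∧ G.mul.Realize (Sum.elim x (Sum.elim y z)) → z k = t k) := by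
    intro x y t z
    simp only [ψ]
    rw [Formula.realize_imp, Formula.realize_inf, Formula.realize_relabel,
      Formula.realize_relabel, Formula.realize_equal]
    have h2 : (Sum.elim (Sum.elim (Sum.elim x y) t) z ∘
      (Sum.elim (fun k => Sum.inl (Sum.inl (Sum.inl k)))
          (Sum.elim (fun k => Sum.inl (Sum.inl (Sum.inr k))) (fun k => Sum.inr k)))) =
      Sum.elim x (Sum.elim y z) := by
      funext t
      rcases t with t | t | t <;> rfl
    rw [h2]
    rfl
  have hM : Ψ.Realize (Sum.elim (Sum.elim g.1 h.1) (g * h).1) := by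
    simp only [Ψ]
    rw [Formula.realize_iAlls]
    intro z
    rw [key]
    rintro ⟨h1, h2⟩
    have := (G.mul_iff g h ⟨z, h1⟩).1 h2
    rw [this]
  have hK : Ψ.Realize (Sum.elim (Sum.elim (fun k => f (g.1 k)) (fun k => f (h.1 k)))
      (fun k => f ((g * h).1 k))) := by
    have := (f.map_formula Ψ _).2 hM
    convert this using 1
    funext t
    rcases t with (t | t) | t <;> rfl
  simp only [Ψ] at hK
  rw [Formula.realize_iAlls] at hK
  have h4 := hK z
  rw [key'] at h4
  exact h4 ⟨hz, hm⟩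

theorem realize_prodF_pts {K : Type*} [L.Structure K] (f : M ↪ₑ[L] K) {β : Type*}
    (φ : L.Formula (Fin G.n ⊕ β)) (g h : G.Pts) (e : β → K) :
    (prodF G φ).Realize (Sum.elim (Sum.elim (fun k => f (g.1 k)) (fun k => f (h.1 k))) e) ↔
      φ.Realize (Sum.elim (fun k => f ((g * h).1 k)) e) := by
  rw [realize_prodF]
  constructor
  · rintro ⟨z, h1, h2, h3⟩
    rw [mul_unique f g h z h1 h2] at h3
    exact h3
  · intro h1
    refine ⟨_, ?_, ?_, h1⟩
    · exact (f.map_formula G.dom (g * h).1).2 (g * h).2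
    · have := (f.map_formula G.mul (Sum.elim g.1 (Sum.elim h.1 (g * h).1))).2
        ((G.mul_iff g h (g * h)).2 rfl)
      convert this using 1
      funext t
      rcases t with t | t | t <;> rfl

/-- The formula `φ(g x)`. -/
noncomputable def shiftL (i : M ↪ₑ[L] N) (g : G.Pts) (φ : L.Formula (Fin G.n ⊕ N)) :
    L.Formula (Fin G.n ⊕ N) :=
  (prodF G φ).relabel (Sum.elim (Sum.elim (fun k => Sum.inr (i (g.1 k))) (fun k => Sum.inl k))
    (fun e => Sum.inr e))

/-- The formula `φ(x b)`. -/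
noncomputable def shiftR (b : Fin G.n → N) (φ : L.Formula (Fin G.n ⊕ N)) :
    L.Formula (Fin G.n ⊕ N) :=
  (prodF G φ).relabel (Sum.elim (Sum.elim (fun k => Sum.inl k) (fun k => Sum.inr (b k)))
    (fun e => Sum.inr e))

theorem realize_shiftL {K : Type*} [L.Structure K] (g : G.Pts) (φ : L.Formula (Fin G.n ⊕ N))
    (x : Fin G.n → K) (e : N → K) :
    (shiftL i g φ).Realize (Sum.elim x e) ↔
      (prodF G φ).Realize (Sum.elim (Sum.elim (fun k => e (i (g.1 k))) x) e) := by
  unfold shiftL
  rw [Formula.realize_relabel]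
  have : (Sum.elim x e ∘ Sum.elim (Sum.elim (fun k => Sum.inr (i (g.1 k))) (fun k => Sum.inl k))
    (fun e => Sum.inr e)) = (Sum.elim (Sum.elim (fun k => e (i (g.1 k))) x) e) := by
    funext t
    rcases t with (t | t) | t <;> rfl
  rw [this]

omit [L.Structure N] in
theorem realize_shiftR {K : Type*} [L.Structure K] (b : Fin G.n → N)
    (φ : L.Formula (Fin G.n ⊕ N)) (x : Fin G.n → K) (e : N → K) :
    (shiftR b φ).Realize (Sum.elim x e) ↔
      (prodF G φ).Realize (Sum.elim (Sum.elim x (fun k => e (b k))) e) := by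
  unfold shiftR
  rw [Formula.realize_relabel]
  have : (Sum.elim x e ∘ Sum.elim (Sum.elim (fun k => Sum.inl k) (fun k => Sum.inr (b k)))
    (fun e => Sum.inr e)) = (Sum.elim (Sum.elim x (fun k => e (b k))) e) := by
    funext t
    rcases t with (t | t) | t <;> rfl
  rw [this]

theorem At_shiftL (g h : G.Pts) (φ : L.Formula (Fin G.n ⊕ N)) :
    At i h (shiftL i g φ) ↔ At i (g * h) φ := by
  unfold At
  rw [realize_shiftL]
  exact realize_prodF_pts i φ g h _

theorem shiftL_shiftL (p : FS G i) (g h : G.Pts) (φ : L.Formula (Fin G.n ⊕ N)) :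
    shiftL i h (shiftL i g φ) ∈ p.formulas ↔ shiftL i (g * h) φ ∈ p.formulas := by
  apply p.mem_iff_of_trace
  intro k
  rw [At_shiftL, At_shiftL, At_shiftL, mul_assoc]

theorem shiftL_not (p : FS G i) (g : G.Pts) (φ : L.Formula (Fin G.n ⊕ N)) :
    shiftL i g φ.not ∈ p.formulas ↔ shiftL i g φ ∉ p.formulas := by
  rw [← p.not_mem_iff]
  apply p.mem_iff_of_trace
  intro k
  rw [At_shiftL, At_not, At_not, At_shiftL]

/-- The formula `χ` defines the set of all `g` such that `φ` is in `g * q`. -/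
def IsRep (q : FS G i) (φ χ : L.Formula (Fin G.n ⊕ N)) : Prop :=
  ∀ g : G.Pts, At i g χ ↔ shiftL i g φ ∈ q.formulas

theorem IsRep.not {q : FS G i} {φ χ : L.Formula (Fin G.n ⊕ N)} (h : IsRep q φ χ) :
    IsRep q φ.not χ.not := by
  intro g
  rw [At_not, h g, shiftL_not]

end Pool.Agent.Helper77.Tau
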