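import Mathlib

/-!
# The `τ`-topology on the ideal groups of a group definable in an NIP theory: definitions

`M` is a structure, `N` is an elementary extension of `M`, and `G` is a group which is definable in
`M` without parameters (a set of `n`-tuples). All definitions follow the usual ones: NIP theories,
saturated structures, the space `S_G^fs(N, M)` of complete types over `N` which are concentrated on
`G` and finitely satisfiable in `M`, its semigroup operation, minimal left ideals, and the
`τ`-topology on `u ℳ` for an idempotent `u` of a minimal left ideal `ℳ`.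
-/

set_option autoImplicit false

universe u v w

open FirstOrder FirstOrder.Language Filter Topology

namespace Pool.Agent.Helper77.Tau

variable {L : FirstOrder.Language.{u, v}}

/-- The formula `φ(x; y)`, where `x` and `y` are tuples of variables, has the independence property
in the structure `M'`: there are tuples `y i` for `i : ℕ`, and `x s` for all `s ⊆ ℕ`, such that
`φ(x s; y i)` holds if and only if `i ∈ s`. -/
def HasIP (M' : Type w) [L.Structure M'] {a b : ℕ} (φ : L.Formula (Fin a ⊕ Fin b)) : Prop :=
  ∃ (x : Set ℕ → Fin a → M') (y : ℕ → Fin b → M'),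
    ∀ (s : Set ℕ) (i : ℕ), φ.Realize (Sum.elim (x s) (y i)) ↔ i ∈ s

/-- The theory `T` is NIP: no formula has the independence property in a model of `T`. -/
def IsNIP (T : L.Theory) : Prop :=
  ∀ (a b : ℕ) (φ : L.Formula (Fin a ⊕ Fin b)) (M' : Type w) [L.Structure M'] [M' ⊨ T],
    ¬ HasIP M' φ

/-- The structure `N` is `κ`-saturated: for every set `A` of fewer than `κ` elements of `N`, every
set `p` of formulas in finitely many variables and with parameters from `A` which is finitely
satisfiable in `N` is realised in `N`. A formula in the variables `x₁, ..., x_k` with parameters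
from `A` is given as a formula with free variables in `Fin k ⊕ A`, in which the variable `a : A` is
interpreted as `a`. -/
def IsSaturated (L : FirstOrder.Language.{u, v}) (κ : Cardinal.{w}) (N : Type w) [L.Structure N] : Prop :=
  ∀ A : Set N, Cardinal.mk A < κ → ∀ (k : ℕ) (p : Set (L.Formula (Fin k ⊕ A))),
    (∀ F ⊆ p, F.Finite → ∃ x : Fin k → N, ∀ φ ∈ F, φ.Realize (Sum.elim x (fun a : A => (a : N)))) →
    ∃ x : Fin k → N, ∀ φ ∈ p, φ.Realize (Sum.elim x (fun a : A => (a : N)))

/-- A group which is definable without parameters in the structure `M`: its elements are the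
`n`-tuples which satisfy the formula `dom`, and the graph of the multiplication is given by the
formula `mul`. -/
structure DefGroup (L : FirstOrder.Language.{u, v}) (M : Type w) [L.Structure M] where
  /-- the length of the tuples -/
  n : ℕ
  /-- the formula defining the underlying set -/
  dom : L.Formula (Fin n)
  /-- the formula defining the graph of the multiplication -/
  mul : L.Formula (Fin n ⊕ (Fin n ⊕ Fin n))
  /-- the group structure -/
  group : Group {x : Fin n → M // dom.Realize x}
  mul_iff : ∀ x y z : {x : Fin n → M // dom.Realize x},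
    mul.Realize (Sum.elim x.1 (Sum.elim y.1 z.1)) ↔ x * y = z

attribute [instance] DefGroup.group

variable {M N : Type w} [L.Structure M] [L.Structure N]

/-- The group `G(M)`. -/
abbrev DefGroup.Pts (G : DefGroup L M) : Type w := {x : Fin G.n → M // G.dom.Realize x}

/-- The space `S_G^fs(N, M)`: the complete types over `N` which are concentrated on `G` and are
finitely satisfiable in `M`. A formula with parameters from `N` is given as a formula with free
variables in `Fin n ⊕ N`, in which the variable `b : N` is interpreted as `b`. A type is given as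
the set of its formulas. -/
@[ext]
structure FS (G : DefGroup L M) (i : M ↪ₑ[L] N) where
  /-- the set of formulas -/
  formulas : Set (L.Formula (Fin G.n ⊕ N))
  /-- the type is complete -/
  complete : ∀ φ : L.Formula (Fin G.n ⊕ N), φ ∈ formulas ∨ φ.not ∈ formulas
  /-- the type is concentrated on `G` -/
  concentrated : G.dom.relabel Sum.inl ∈ formulas
  /-- the type is finitely satisfiable in `M` -/
  finSat : ∀ F ⊆ formulas, F.Finite →
    ∃ x : Fin G.n → M, ∀ φ ∈ F, φ.Realize (Sum.elim (fun k => i (x k)) (fun b : N => b))

variable {G : DefGroup L M} {i : M ↪ₑ[L] N}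

/-- The usual topology on the space of types: the basic open sets are the sets `{p | φ ∈ p}`. -/
instance : TopologicalSpace (FS G i) :=
  TopologicalSpace.generateFrom {U | ∃ φ : L.Formula (Fin G.n ⊕ N), U = {p | φ ∈ p.formulas}}

/-- The type over `N` of a tuple in an elementary extension `N'` of `N`. -/
def tpOver {N' : Type w} [L.Structure N'] {k : ℕ} (j : N ↪ₑ[L] N') (a : Fin k → N') :
    Set (L.Formula (Fin k ⊕ N)) :=
  {φ | φ.Realize (Sum.elim a (fun b : N => j b))}

/-- `r` is the product `p * q`: there are an elementary extension `N'` of `N` and realisations `a`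
of `p` and `b` of `q` in `N'` such that the type of `a` over `N ∪ {b}` is finitely satisfiable in
`M`, and `r` is the type of the product `c = a b`. -/
def IsProd (p q r : FS G i) : Prop :=
  ∃ (N' : Type w) (_ : L.Structure N') (j : N ↪ₑ[L] N') (a b c : Fin G.n → N'),
    tpOver j a = p.formulas ∧ tpOver j b = q.formulas ∧
    (∀ φ : L.Formula (Fin G.n ⊕ (N ⊕ Fin G.n)),
      φ.Realize (Sum.elim a (Sum.elim (fun e : N => j e) b)) →
      ∃ x : Fin G.n → M,
        φ.Realize (Sum.elim (fun k => j (i (x k))) (Sum.elim (fun e : N => j e) b))) ∧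
    G.mul.Realize (Sum.elim a (Sum.elim b c)) ∧ tpOver j c = r.formulas

/-- The type over `N` of an element `g` of `G(M)`. -/
def ofPt (g : G.Pts) : FS G i where
  formulas := {φ | φ.Realize (Sum.elim (fun k => i (g.1 k)) (fun b : N => b))}
  complete φ := by
    by_cases h : φ.Realize (Sum.elim (fun k => i (g.1 k)) (fun b : N => b))
    · exact Or.inl h
    · exact Or.inr (Formula.realize_not.2 h)
  concentrated := by
    have h := (i.map_formula G.dom g.1).2 g.2
    simpa [Formula.realize_relabel, Function.comp_def] using h
  finSat F hF _ := ⟨g.1, fun φ hφ => hF hφ⟩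

section Ideal

variable (op : FS G i → FS G i → FS G i)

/-- `ℳ` is a minimal left ideal of the semigroup with multiplication `op`. -/
def IsMinimalLeftIdeal (ℳ : Set (FS G i)) : Prop :=
  ℳ.Nonempty ∧ (∀ p, ∀ m ∈ ℳ, op p m ∈ ℳ) ∧
    ∀ ℳ' ⊆ ℳ, ℳ'.Nonempty → (∀ p, ∀ m ∈ ℳ', op p m ∈ ℳ') → ℳ' = ℳ

/-- The set `u ℳ`. -/
def idealGroup (u : FS G i) (ℳ : Set (FS G i)) : Set (FS G i) := {x | ∃ m ∈ ℳ, x = op u m}

/-- The set `p ∘ A` of all limits of convergent nets `g k * a k`, where the `g k` are in `G(M)` and
converge to `p`, and the `a k` are in `A`. -/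
def circ (p : FS G i) (A : Set (FS G i)) : Set (FS G i) :=
  {r | ∃ (ι : Type (max u v w)) (_ : Preorder ι) (_ : IsDirected ι (· ≤ ·)) (_ : Nonempty ι)
    (g : ι → G.Pts) (a : ι → FS G i), (∀ k, a k ∈ A) ∧
      Tendsto (fun k => (ofPt (g k) : FS G i)) atTop (𝓝 p) ∧
      Tendsto (fun k => op (ofPt (g k)) (a k)) atTop (𝓝 r)}

/-- The operator `cl_τ` on subsets of `K = u ℳ`. -/
def clTau (u : FS G i) (K A : Set (FS G i)) : Set (FS G i) := K ∩ circ op u A

end Ideal

end Pool.Agent.Helper77.Tau
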