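import Pool.Agent.Helper77.Tau.Shatter

/-!
Sanity check: the space of types is a compact Hausdorff semigroup whose multiplication is
continuous on the left, so minimal left ideals and idempotents in them exist.
-/

set_option autoImplicit false

universe u v w

open FirstOrder FirstOrder.Language Filter Topology

namespace Pool.Agent.Helper77.Tau

variable {L : FirstOrder.Language.{u, v}} {M N : Type w} [L.Structure M] [L.Structure N]
  {G : DefGroup L M} {i : M ↪ₑ[L] N}

theorem isOpen_mem (φ : L.Formula (Fin G.n ⊕ N)) : IsOpen {p : FS G i | φ ∈ p.formulas} :=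
  TopologicalSpace.isOpen_generateFrom_of_mem ⟨φ, rfl⟩

instance : T2Space (FS G i) := by
  refine ⟨fun x y hxy => ?_⟩
  obtain ⟨φ, hφx, hφy⟩ : ∃ φ, φ ∈ x.formulas ∧ φ ∉ y.formulas := by
    by_contra h
    push Not at h
    apply hxy
    ext φ
    refine ⟨h φ, fun h1 => ?_⟩
    by_contra h2
    exact (y.not_mem_iff φ).1 (h _ ((x.not_mem_iff φ).2 h2)) h1
  refine ⟨_, _, isOpen_mem φ, isOpen_mem φ.not, hφx, (y.not_mem_iff φ).2 hφy, ?_⟩
  rw [Set.disjoint_left]
  intro p h1 h2
  exact (p.not_mem_iff φ).1 h2 h1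

instance : CompactSpace (FS G i) := by
  constructor
  rw [isCompact_iff_ultrafilter_le_nhds]
  intro F _
  refine ⟨⟨{φ | {p : FS G i | φ ∈ p.formulas} ∈ F}, ?_, ?_, ?_⟩, Set.mem_univ _, ?_⟩
  · intro φ
    rcases Ultrafilter.mem_or_compl_mem F {p : FS G i | φ ∈ p.formulas} with h | h
    · exact Or.inl h
    · refine Or.inr (F.mem_of_superset h fun p hp => ?_)
      exact (p.not_mem_iff φ).2 hp
  · exact F.mem_of_superset Filter.univ_mem fun p _ => p.concentrated
  · intro E hE hfin
    have h1 : (⋂ φ ∈ E, {p : FS G i | φ ∈ p.formulas}) ∈ (F : Filter (FS G i)) :=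
      (Filter.biInter_mem hfin).2 fun φ hφ => hE hφ
    obtain ⟨p, hp⟩ := F.nonempty_of_mem h1
    refine p.finSat E (fun φ hφ => ?_) hfin
    exact Set.mem_iInter₂.1 hp φ hφ
  · rw [TopologicalSpace.nhds_generateFrom]
    apply le_iInf₂
    rintro _ ⟨hφ, φ, rfl⟩
    rw [Filter.le_principal_iff]
    exact hφ

theorem continuous_op_left (hN : IsSaturated L (Order.succ (Cardinal.mk M)) N)
    {op : FS G i → FS G i → FS G i} (hop : ∀ p q r, IsProd p q r ↔ r = op p q) (q : FS G i) :
    Continuous fun p => op p q := by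
  rw [continuous_generateFrom_iff]
  rintro _ ⟨φ, rfl⟩
  obtain ⟨χ, hχ⟩ := exists_rep hN q φ
  have : (fun p => op p q) ⁻¹' {p : FS G i | φ ∈ p.formulas} = {p : FS G i | χ ∈ p.formulas} := by
    ext p
    exact mem_op hop hχ
  rw [this]
  exact isOpen_mem χ

/-- Minimal left ideals exist, and every minimal left ideal contains an idempotent. -/
theorem exists_ideal (hN : IsSaturated L (Order.succ (Cardinal.mk M)) N)
    {op : FS G i → FS G i → FS G i} (hop : ∀ p q r, IsProd p q r ↔ r = op p q) :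
    (∃ ℳ, IsMinimalLeftIdeal op ℳ) ∧
      ∀ ℳ, IsMinimalLeftIdeal op ℳ → ∃ u ∈ ℳ, op u u = u := by
  classical
  have hne : Nonempty (FS G i) := ⟨ofPt 1⟩
  let S : Set (Set (FS G i)) := {A | IsClosed A ∧ A.Nonempty ∧ ∀ p, ∀ a ∈ A, op p a ∈ A}
  have horb : ∀ a : FS G i, Set.range (fun p => op p a) ∈ S := by
    intro a
    refine ⟨(isCompact_range (continuous_op_left hN hop a)).isClosed, Set.range_nonempty _, ?_⟩
    rintro p _ ⟨q, rfl⟩
    exact ⟨op p q, op_assoc hN hop p q a⟩
  constructor
  · obtain ⟨A, hA⟩ : ∃ A, Minimal (· ∈ S) A := by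
      refine zorn_superset _ fun c hc hchain => ?_
      rcases c.eq_empty_or_nonempty with rfl | hcne
      · exact ⟨Set.univ, ⟨isClosed_univ, Set.univ_nonempty, fun _ _ _ => trivial⟩,
          fun s hs => absurd hs (Set.notMem_empty _)⟩
      · refine ⟨⋂₀ c, ⟨isClosed_sInter fun s hs => (hc hs).1, ?_, ?_⟩,
          fun s hs => Set.sInter_subset_of_mem hs⟩
        · have : Nonempty c := hcne.to_subtype
          refine IsCompact.nonempty_sInter_of_directed_nonempty_isCompact_isClosed ?_
            (fun s hs => (hc hs).2.1)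
            (fun s hs => (hc hs).1.isCompact) (fun s hs => (hc hs).1)
          intro s hs t ht
          rcases hchain.total hs ht with h | h
          · exact ⟨s, hs, Set.Subset.rfl, h⟩
          · exact ⟨t, ht, h, Set.Subset.rfl⟩
        · intro p a ha s hs
          exact (hc hs).2.2 p a (ha s hs)
    refine ⟨A, hA.prop.2.1, hA.prop.2.2, ?_⟩
    intro B hBA hB hBi
    obtain ⟨b, hb⟩ := hB
    have h1 : Set.range (fun p => op p b) ⊆ B := by
      rintro _ ⟨p, rfl⟩
      exact hBi p b hb
    have h2 : A ⊆ Set.range (fun p => op p b) :=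
      hA.le_of_le (horb b) (h1.trans hBA)
    exact Set.Subset.antisymm hBA (h2.trans h1)
  · intro A hA
    obtain ⟨⟨a, ha⟩, hAi, hmin⟩ := hA
    have h1 : Set.range (fun p => op p a) ⊆ A := by
      rintro _ ⟨p, rfl⟩
      exact hAi p a ha
    have h2 := hmin _ h1 (horb a).2.1 (horb a).2.2
    have hcl : IsClosed A := by rw [← h2]; exact (horb a).1
    let _ : Semigroup (FS G i) := { mul := op, mul_assoc := op_assoc hN hop }
    obtain ⟨u, hu, huu⟩ := exists_idempotent_in_compact_subsemigroup (M := FS G i)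
      (fun r => continuous_op_left hN hop r) A ⟨a, ha⟩ hcl.isCompact
      (fun x _ y hy => hAi x y hy)
    exact ⟨u, hu, huu⟩

end Pool.Agent.Helper77.Tau
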