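import Pool.Agent.Helper77.Tau.Shatter

/-!
NIP contradicts the shattering; the `τ`-topology is Hausdorff.
-/

set_option autoImplicit false

universe u v w

open FirstOrder FirstOrder.Language Filter Topology

namespace Pool.Agent.Helper77.Tau

variable {L : FirstOrder.Language.{u, v}}

/-- In an NIP theory no formula with arbitrary sets of variables has the independence property. -/
theorem IsNIP.general {T : L.Theory} (hT : IsNIP.{u, v, w} T) {α β : Type*}
    (φ : L.Formula (α ⊕ β)) (K : Type w) [L.Structure K] [K ⊨ T]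
    (x : Set ℕ → α → K) (y : ℕ → β → K) :
    ¬ ∀ (s : Set ℕ) (k : ℕ), φ.Realize (Sum.elim (x s) (y k)) ↔ k ∈ s := by
  classical
  intro h
  let P : Set α := {e | Sum.inl e ∈ φ.freeVarFinset}
  have hP : P.Finite := by
    have : P ⊆ Sum.inl ⁻¹' (φ.freeVarFinset : Set (α ⊕ β)) := fun e he => he
    exact ((φ.freeVarFinset.finite_toSet).preimage Sum.inl_injective.injOn).subset this
  let Q : Set β := {e | Sum.inr e ∈ φ.freeVarFinset}
  have hQ : Q.Finite := by
    have : Q ⊆ Sum.inr ⁻¹' (φ.freeVarFinset : Set (α ⊕ β)) := fun e he => he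
    exact ((φ.freeVarFinset.finite_toSet).preimage Sum.inr_injective.injOn).subset this
  have : Finite P := hP
  have : Finite Q := hQ
  obtain ⟨a, ⟨ea⟩⟩ := Finite.exists_equiv_fin P
  obtain ⟨b, ⟨eb⟩⟩ := Finite.exists_equiv_fin Q
  let f : φ.freeVarFinset → Fin a ⊕ Fin b := fun t =>
    match t with
    | ⟨Sum.inl e, h⟩ => Sum.inl (ea ⟨e, h⟩)
    | ⟨Sum.inr e, h⟩ => Sum.inr (eb ⟨e, h⟩)
  refine hT a b (φ.restrictFreeVar f) K ⟨fun s k => x s (ea.symm k), fun n k => y n (eb.symm k), ?_⟩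
  intro s k
  rw [← h s k]
  unfold Formula.Realize
  refine BoundedFormula.realize_restrictFreeVar _ ?_
  rintro ⟨t | t, ht⟩
  · simp [f]
  · simp [f]

variable {M N : Type w} [L.Structure M] [L.Structure N] {G : DefGroup L M} {i : M ↪ₑ[L] N}

theorem not_shatter [Nonempty M] {T : L.Theory} (hT : IsNIP.{u, v, w} T) [M ⊨ T]
    (φ : L.Formula (Fin G.n ⊕ N))
    (h : ∀ n : ℕ, ∃ (γ : (Fin n → Bool) → G.Pts) (d : Fin n → G.Pts),
      ∀ A k, At i (γ A * d k) φ ↔ A k = true) : False := by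
  classical
  have hNn : Nonempty N := Nonempty.map i inferInstance
  have hNT : N ⊨ T := (i.theory_model_iff T).1 inferInstance
  choose γ d hγd using h
  let D : Ultrafilter ℕ := Filter.hyperfilter ℕ
  let K : Type w := (D : Filter ℕ).Product (fun _ => N)
  let j : N ↪ₑ[L] K := diag L D
  have hKT : K ⊨ T := (j.theory_model_iff T).1 hNT
  -- the formula `prodF φ` with variables `((x, e), y)`
  let ψ : L.Formula ((Fin G.n ⊕ N) ⊕ Fin G.n) := (prodF G φ).relabel
    (Sum.elim (Sum.elim (fun k => Sum.inl (Sum.inl k)) (fun k => Sum.inr k))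
      (fun e => Sum.inl (Sum.inr e)))
  let x : Set ℕ → (Fin G.n ⊕ N) → K := fun s => Sum.elim
    (fun k => ((fun m : ℕ => i ((γ m (fun t => decide ((t : ℕ) ∈ s))).1 k) : ℕ → N) : K))
    (fun e => ((fun _ : ℕ => e : ℕ → N) : K))
  let y : ℕ → Fin G.n → K := fun r k =>
    ((fun m : ℕ => if h : r < m then i ((d m ⟨r, h⟩).1 k) else i ((1 : G.Pts).1 k) : ℕ → N) : K)
  refine hT.general ψ K x y ?_
  intro s r
  have hLos := Ultraproduct.realize_formula_cast (u := D) ψ (Sum.elim (Sum.elim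
    (fun k => (fun m : ℕ => i ((γ m (fun t => decide ((t : ℕ) ∈ s))).1 k)))
    (fun e => (fun _ : ℕ => e)))
    (fun k => (fun m : ℕ => if h : r < m then i ((d m ⟨r, h⟩).1 k) else i ((1 : G.Pts).1 k))))
  have h1 : (ψ.Realize (Sum.elim (x s) (y r)) ↔ ∀ᶠ m in (D : Filter ℕ), ψ.Realize
      (Sum.elim (Sum.elim (fun k => i ((γ m (fun t => decide ((t : ℕ) ∈ s))).1 k))
        (fun e => e)) (fun k => if h : r < m then i ((d m ⟨r, h⟩).1 k)
          else i ((1 : G.Pts).1 k)))) := by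
    refine Iff.trans (iff_of_eq ?_) (hLos.trans (iff_of_eq ?_))
    · congr 1
      funext t; rcases t with (t | t) | t <;> rfl
    · congr 1
      funext m
      congr 1
      funext t; rcases t with (t | t) | t <;> rfl
  rw [h1]
  have h2 : ∀ m : ℕ, r < m → (ψ.Realize
      (Sum.elim (Sum.elim (fun k => i ((γ m (fun t => decide ((t : ℕ) ∈ s))).1 k))
        (fun e => e)) (fun k => if h : r < m then i ((d m ⟨r, h⟩).1 k)
          else i ((1 : G.Pts).1 k))) ↔ r ∈ s) := by
    intro m hm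
    simp only [ψ]
    rw [Formula.realize_relabel]
    have h3 : (Sum.elim (Sum.elim (fun k => i ((γ m (fun t => decide ((t : ℕ) ∈ s))).1 k))
        (fun e => e)) (fun k => if h : r < m then i ((d m ⟨r, h⟩).1 k)
          else i ((1 : G.Pts).1 k))) ∘ (Sum.elim (Sum.elim (fun k => Sum.inl (Sum.inl k))
          (fun k => Sum.inr k)) (fun e => Sum.inl (Sum.inr e))) =
        Sum.elim (Sum.elim (fun k => i ((γ m (fun t => decide ((t : ℕ) ∈ s))).1 k))
          (fun k => i ((d m ⟨r, hm⟩).1 k))) (fun e : N => e) := by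
      funext t
      rcases t with (t | t) | t
      · rfl
      · simp [hm]
      · rfl
    rw [h3, realize_prodF_pts]
    have h4 := hγd m (fun t => decide ((t : ℕ) ∈ s)) ⟨r, hm⟩
    unfold At at h4
    rw [h4]
    simp
  have h5 : ∀ᶠ m in (D : Filter ℕ), r < m := by
    have : ∀ᶠ m in (atTop : Filter ℕ), r < m := eventually_gt_atTop r
    exact Nat.hyperfilter_le_atTop this
  constructor
  · intro h6
    obtain ⟨m, h7, h8⟩ := (h6.and h5).exists
    exact (h2 m h8).1 h7
  · intro h6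
    filter_upwards [h5] with m hm
    exact (h2 m hm).2 h6

section Final

variable {op : FS G i → FS G i → FS G i}

/-- Points of `K` can be separated. -/
theorem separate [Nonempty M] (hN : IsSaturated L (Order.succ (Cardinal.mk M)) N)
    {T : L.Theory} (hT : IsNIP.{u, v, w} T) [M ⊨ T]
    (hop : ∀ p q r, IsProd p q r ↔ r = op p q) (u : FS G i) (K : Set (FS G i))
    (hK : ∀ k ∈ K, op u k = k) (x y : FS G i) (hx : x ∈ K) (hy : y ∈ K) (hxy : x ≠ y) :
    ∃ F₁ F F' : Set (L.Formula (Fin G.n ⊕ N)), F₁.Finite ∧ F.Finite ∧ F'.Finite ∧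
      F₁ ⊆ u.formulas ∧ F ⊆ x.formulas ∧ F' ⊆ y.formulas ∧
      ∀ k ∈ K, ∀ g h : G.Pts, F₁ ⊆ (ofPt g : FS G i).formulas →
        F₁ ⊆ (ofPt h : FS G i).formulas → F ⊆ (op (ofPt g) k).formulas →
        ¬ F' ⊆ (op (ofPt h) k).formulas := by
  by_contra hcon
  push Not at hcon
  obtain ⟨φ, hφx, hφy⟩ : ∃ φ, φ ∈ x.formulas ∧ φ ∉ y.formulas := by
    by_contra h
    push Not at h
    apply hxy
    ext φ
    refine ⟨h φ, fun h1 => ?_⟩
    by_contra h2
    exact (y.not_mem_iff φ).1 (h _ ((x.not_mem_iff φ).2 h2)) h1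
  refine not_shatter (i := i) hT φ fun n => ?_
  obtain ⟨c, γ, _, h⟩ := shatter_types hN hop u K hK x y hx hy φ hφx hφy
    (fun F₁ F F' h1 h2 h3 h4 h5 h6 => by
      obtain ⟨k, hk, g, h, a1, a2, a3, a4⟩ := hcon F₁ F F' h1 h2 h3 h4 h5 h6
      exact ⟨k, hk, g, h, a1, a2, a3, a4⟩) n
  obtain ⟨d, hd⟩ := shatter_points φ n c γ fun A k => (h A).2.2 k
  exact ⟨γ, d, hd⟩

theorem main [Nonempty M] (hN : IsSaturated L (Order.succ (Cardinal.mk M)) N)
    {T : L.Theory} (hT : IsNIP.{u, v, w} T) [M ⊨ T]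
    (hop : ∀ p q r, IsProd p q r ↔ r = op p q) (u : FS G i) (K : Set (FS G i))
    (hK : ∀ k ∈ K, op u k = k) (hu : op u u = u) :
    ∃ t : TopologicalSpace K,
      (∀ A : Set K, IsClosed[t] A ↔ clTau op u K (Subtype.val '' A) = Subtype.val '' A) ∧
      @T2Space K t := by
  classical
  let c : Set K → Set K := fun A => {x | (x : FS G i) ∈ circ op u (Subtype.val '' A)}
  have hc : ∀ A : Set K, clTau op u K (Subtype.val '' A) = Subtype.val '' A ↔ c A = A := by
    intro A
    have h1 : clTau op u K (Subtype.val '' A) = Subtype.val '' (c A) := by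
      ext x
      constructor
      · rintro ⟨h1, h2⟩
        exact ⟨⟨x, h1⟩, h2, rfl⟩
      · rintro ⟨y, h1, rfl⟩
        exact ⟨y.2, h1⟩
    rw [h1]
    exact (Set.image_injective.2 Subtype.val_injective).eq_iff
  have hmono : ∀ A B : Set K, A ⊆ B → c A ⊆ c B := fun A B h x hx =>
    circ_mono (Set.image_mono h) hx
  have hinfl : ∀ A : Set K, A ⊆ c A := by
    intro A x hx
    refine subset_circ hN hop (p := u) (A := Subtype.val '' A) ?_ ⟨x, hx, rfl⟩
    rintro _ ⟨y, _, rfl⟩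
    exact hK y y.2
  have hunion : ∀ A B : Set K, c (A ∪ B) ⊆ c A ∪ c B := by
    intro A B x hx
    have h1 : (x : FS G i) ∈ circ op u (Subtype.val '' (A ∪ B)) := hx
    rw [Set.image_union] at h1
    exact circ_union h1
  have hempty : c ∅ = ∅ := by
    ext x
    simp only [Set.mem_empty_iff_false, iff_false]
    intro hx
    have h1 : (x : FS G i) ∈ circ op u (Subtype.val '' (∅ : Set K)) := hx
    rw [Set.image_empty, mem_circ_iff] at h1
    obtain ⟨g, a, ha, _⟩ := h1 ∅ ∅ Set.finite_empty Set.finite_empty (Set.empty_subset _)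
      (Set.empty_subset _)
    exact ha
  have hidem : ∀ A : Set K, c (c A) ⊆ c A := by
    intro A x hx
    have h1 : (x : FS G i) ∈ circ op u (Subtype.val '' (c A)) := hx
    have h2 : Subtype.val '' (c A) ⊆ circ op u (Subtype.val '' A) := by
      rintro _ ⟨y, hy, rfl⟩
      exact hy
    have h3 := circ_circ hN hop (circ_mono h2 h1)
    rw [hu] at h3
    exact h3
  let t : TopologicalSpace K := TopologicalSpace.ofClosed {A | c A = A} hempty (by
    intro 𝒜 h𝒜
    refine Set.Subset.antisymm ?_ (hinfl _)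
    intro x hx A hA
    have h1 := hmono _ _ (Set.sInter_subset_of_mem hA) hx
    rw [h𝒜 hA] at h1
    exact h1) (by
    intro A hA B hB
    refine Set.Subset.antisymm ?_ (hinfl _)
    refine (hunion A B).trans ?_
    rw [hA, hB])
  have hclosed : ∀ A : Set K, IsClosed[t] A ↔ c A = A := by
    intro A
    rw [← @isOpen_compl_iff _ _ t]
    change c (Aᶜᶜ) = Aᶜᶜ ↔ _
    rw [compl_compl]
  refine ⟨t, fun A => (hclosed A).trans (hc A).symm, ?_⟩
  refine @T2Space.mk K t ?_
  intro x y hxy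
  obtain ⟨F₁, F, F', f1, f2, f3, f4, f5, f6, hsep⟩ := separate hN hT hop u K hK x y x.2 y.2
    (fun h => hxy (Subtype.ext h))
  let B : Set (L.Formula (Fin G.n ⊕ N)) → Set K := fun F => {k | ∃ g : G.Pts,
    F₁ ⊆ (ofPt g : FS G i).formulas ∧ F ⊆ (op (ofPt g) (k : FS G i)).formulas}
  have hB : ∀ (F : Set (L.Formula (Fin G.n ⊕ N))) (z : K), F.Finite → F ⊆ (z : FS G i).formulas →
      z ∉ c (B F)ᶜ := by
    intro F z hF hz hcon
    have h1 : (z : FS G i) ∈ circ op u (Subtype.val '' (B F)ᶜ) := hcon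
    rw [mem_circ_iff] at h1
    obtain ⟨g, a, ⟨b, hb, rfl⟩, h2, h3⟩ := h1 F₁ F f1 hF f4 hz
    exact hb ⟨g, h2, h3⟩
  have hopen : ∀ F, IsOpen[t] (c (B F)ᶜ)ᶜ := by
    intro F
    have : IsClosed[t] (c (B F)ᶜ) := (hclosed _).2 (Set.Subset.antisymm (hidem _) (hinfl _))
    exact @IsClosed.isOpen_compl _ t _ this
  have hsub : ∀ F, (c (B F)ᶜ)ᶜ ⊆ B F := by
    intro F z hz
    by_contra h
    exact hz (hinfl _ h)
  refine ⟨(c (B F)ᶜ)ᶜ, (c (B F')ᶜ)ᶜ, hopen F, hopen F', hB F x f2 f5, hB F' y f3 f6, ?_⟩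
  rw [Set.disjoint_left]
  intro k h1 h2
  obtain ⟨g, g1, g2⟩ := hsub F h1
  obtain ⟨h, h3, h4⟩ := hsub F' h2
  exact hsep k k.2 g h g1 h3 g2 h4

end Final

end Pool.Agent.Helper77.Tau
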