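import Pool.Agent.Helper77.Tau.Basic

/-!
Products of types: description, uniqueness and existence.
-/

set_option autoImplicit false

universe u v w

open FirstOrder FirstOrder.Language Filter Topology

namespace Pool.Agent.Helper77.Tau

variable {L : FirstOrder.Language.{u, v}} {M N : Type w} [L.Structure M] [L.Structure N]
  {G : DefGroup L M} {i : M ↪ₑ[L] N}

theorem surj_of_finite (i : M ↪ₑ[L] N) [Finite M] : Function.Surjective i := by
  let Ψ : L.Formula M := Formula.iAlls Unit
    (Formula.iSup fun m : M => Term.equal (Term.var (Sum.inr ())) (Term.var (Sum.inl m)))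
  have hM : Ψ.Realize (id : M → M) := by
    simp only [Ψ]
    rw [Formula.realize_iAlls]
    intro t
    rw [Formula.realize_iSup]
    refine ⟨t (), ?_⟩
    rw [Formula.realize_equal]
    rfl
  have hN := (i.map_formula Ψ _).2 hM
  simp only [Ψ] at hN
  rw [Formula.realize_iAlls] at hN
  intro b
  have h1 := hN (fun _ => b)
  rw [Formula.realize_iSup] at h1
  obtain ⟨m, hm⟩ := h1
  rw [Formula.realize_equal] at hm
  exact ⟨m, hm.symm⟩

/-- By saturation, restrictions of types of `FS` to sufficiently small sets are realised. -/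
theorem exists_rep (hN : IsSaturated L (Order.succ (Cardinal.mk M)) N) (q : FS G i)
    (φ : L.Formula (Fin G.n ⊕ N)) : ∃ χ, IsRep q φ χ := by
  classical
  -- the parameters of `φ`
  let P : Set N := {e | Sum.inr e ∈ φ.freeVarFinset}
  have hP : P.Finite := by
    have : P ⊆ Sum.inr ⁻¹' (φ.freeVarFinset : Set (Fin G.n ⊕ N)) := fun e he => he
    exact ((φ.freeVarFinset.finite_toSet).preimage Sum.inr_injective.injOn).subset this
  let A : Set N := Set.range i ∪ P
  have hA : Cardinal.mk A < Order.succ (Cardinal.mk M) := by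
    rw [Order.lt_succ_iff]
    have hr : Cardinal.mk (Set.range i) ≤ Cardinal.mk M := Cardinal.mk_range_le
    rcases finite_or_infinite M with hfin | hinf
    · have : A = Set.range i := by
        have := surj_of_finite i
        rw [this.range_eq]
        exact Set.eq_univ_of_univ_subset (by
          intro x _
          exact Or.inl (this x))
      rw [this]
      exact hr
    · refine (Cardinal.mk_union_le _ _).trans ?_
      have h1 : Cardinal.aleph0 ≤ Cardinal.mk M := Cardinal.aleph0_le_mk M
      have h2 : Cardinal.mk P ≤ Cardinal.mk M :=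
        (Cardinal.lt_aleph0_iff_set_finite.2 hP).le.trans h1
      exact (add_le_add hr h2).trans (Cardinal.add_eq_self h1).le
  -- the formula with parameters in `A`
  let f : φ.freeVarFinset → Fin G.n ⊕ A := fun a =>
    match a with
    | ⟨Sum.inl k, _⟩ => Sum.inl k
    | ⟨Sum.inr e, h⟩ => Sum.inr ⟨e, Or.inr h⟩
  let φ' : L.Formula (Fin G.n ⊕ A) := φ.restrictFreeVar f
  have hφ' : ∀ x : Fin G.n → N, φ'.Realize (Sum.elim x (fun a : A => (a : N))) ↔
      φ.Realize (Sum.elim x (fun b : N => b)) := by
    intro x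
    unfold Formula.Realize
    refine BoundedFormula.realize_restrictFreeVar _ ?_
    rintro ⟨k | e, h⟩ <;> rfl
  let p : Set (L.Formula (Fin G.n ⊕ A)) :=
    {ψ | ψ.relabel (Sum.map id (fun a : A => (a : N))) ∈ q.formulas}
  have hreal : ∀ (ψ : L.Formula (Fin G.n ⊕ A)) (x : Fin G.n → N),
      (ψ.relabel (Sum.map id (fun a : A => (a : N)))).Realize (Sum.elim x (fun b : N => b)) ↔
        ψ.Realize (Sum.elim x (fun a : A => (a : N))) := by
    intro ψ x
    rw [Formula.realize_relabel]
    have : (Sum.elim x (fun b : N => b) ∘ Sum.map id (fun a : A => (a : N))) =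
      (Sum.elim x (fun a : A => (a : N))) := by
      funext t; rcases t with t | t <;> rfl
    rw [this]
  obtain ⟨b, hb⟩ := hN A hA G.n p (by
    intro F hF hfin
    obtain ⟨x, hx⟩ := q.finSat ((fun ψ : L.Formula (Fin G.n ⊕ A) =>
      ψ.relabel (Sum.map id (fun a : A => (a : N)))) '' F) (by
        rintro _ ⟨ψ, hψ, rfl⟩
        exact hF hψ) (hfin.image _)
    refine ⟨fun k => i (x k), fun ψ hψ => ?_⟩
    rw [← hreal]
    exact hx _ ⟨ψ, hψ, rfl⟩)
  refine ⟨shiftR (G := G) b φ, fun g => ?_⟩
  -- the formula `φ(g x)` with parameters in `A`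
  let θ : L.Formula (Fin G.n ⊕ A) := (prodF G φ').relabel
    (Sum.elim (Sum.elim (fun k => Sum.inr ⟨i (g.1 k), Or.inl ⟨_, rfl⟩⟩) (fun k => Sum.inl k))
      (fun e => Sum.inr e))
  have hθ : ∀ x : Fin G.n → N, θ.Realize (Sum.elim x (fun a : A => (a : N))) ↔
      (prodF G φ).Realize (Sum.elim (Sum.elim (fun k => i (g.1 k)) x) (fun b : N => b)) := by
    intro x
    simp only [θ]
    rw [Formula.realize_relabel]
    have : (Sum.elim x (fun a : A => (a : N)) ∘ (Sum.elim (Sum.elim
      (fun k => Sum.inr (⟨i (g.1 k), Or.inl ⟨_, rfl⟩⟩ : A)) (fun k => Sum.inl k))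
      (fun e => Sum.inr e))) =
      Sum.elim (Sum.elim (fun k => i (g.1 k)) x) (fun a : A => (a : N)) := by
      funext t; rcases t with (t | t) | t <;> rfl
    rw [this, realize_prodF, realize_prodF]
    refine exists_congr fun z => ?_
    rw [hφ']
  have hmem : θ ∈ p ↔ shiftL i g φ ∈ q.formulas := by
    apply q.mem_iff_of_trace
    intro h
    unfold At
    rw [hreal, hθ, realize_shiftL]
  have hAt : At i g (shiftR (G := G) b φ) ↔ θ.Realize (Sum.elim b (fun a : A => (a : N))) := by
    unfold At
    rw [realize_shiftR, hθ]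
  rw [hAt, ← hmem]
  constructor
  · intro h
    by_contra hcon
    have h1 : θ.not ∈ p := by
      change (θ.not.relabel _) ∈ q.formulas
      rcases q.complete (θ.relabel (Sum.map id (fun a : A => (a : N)))) with h2 | h2
      · exact absurd h2 hcon
      · refine q.mem_of_trace ?_ h2
        intro h' h3
        unfold At at h3 ⊢
        rw [hreal, Formula.realize_not, ← hreal]
        rwa [Formula.realize_not] at h3
    exact (Formula.realize_not.1 (hb _ h1)) h
  · exact fun h => hb _ h

theorem dom_of_tp {N' : Type w} [L.Structure N'] (j : N ↪ₑ[L] N') (a : Fin G.n → N')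
    (p : FS G i) (h : tpOver j a = p.formulas) : G.dom.Realize a := by
  have h1 := p.concentrated
  rw [← h] at h1
  have h2 : (G.dom.relabel Sum.inl).Realize (Sum.elim a (fun e : N => j e)) := h1
  rw [Formula.realize_relabel] at h2
  exact h2

theorem mem_prod_aux {p q r : FS G i} (h : IsProd p q r) {φ χ : L.Formula (Fin G.n ⊕ N)}
    (hχ : IsRep q φ χ) (hφ : φ ∈ r.formulas) : χ ∈ p.formulas := by
  obtain ⟨N', _, j, a, b, c, ha, hb, hab, hm, hc⟩ := h
  by_contra hcon
  rw [← p.not_mem_iff] at hcon
  rw [← ha] at hcon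
  have hcon : ¬ χ.Realize (Sum.elim a (fun e : N => j e)) := Formula.realize_not.1 hcon
  have hφ : φ.Realize (Sum.elim c (fun e : N => j e)) := by rw [← hc] at hφ; exact hφ
  have hcd : G.dom.Realize c := dom_of_tp j c r hc
  have had : G.dom.Realize a := dom_of_tp j a p ha
  let θ : L.Formula (Fin G.n ⊕ (N ⊕ Fin G.n)) :=
    (G.dom.relabel Sum.inl) ⊓ (((prodF G φ).relabel
      (Sum.elim (Sum.elim (fun k => Sum.inl k) (fun k => Sum.inr (Sum.inr k)))
        (fun e => Sum.inr (Sum.inl e)))) ⊓
      (χ.relabel (Sum.map id Sum.inl)).not)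
  have hθ : ∀ x : Fin G.n → N', θ.Realize (Sum.elim x (Sum.elim (fun e : N => j e) b)) ↔
      G.dom.Realize x ∧ (prodF G φ).Realize (Sum.elim (Sum.elim x b) (fun e : N => j e)) ∧
        ¬ χ.Realize (Sum.elim x (fun e : N => j e)) := by
    intro x
    simp only [θ]
    rw [Formula.realize_inf, Formula.realize_inf, Formula.realize_not, Formula.realize_relabel,
      Formula.realize_relabel, Formula.realize_relabel]
    have h1 : (Sum.elim x (Sum.elim (fun e : N => j e) b)) ∘
      (Sum.elim (Sum.elim (fun k => Sum.inl k) (fun k => Sum.inr (Sum.inr k)))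
        (fun e => Sum.inr (Sum.inl e))) = (Sum.elim (Sum.elim x b) (fun e : N => j e)) := by
      funext t; rcases t with (t | t) | t <;> rfl
    have h2 : (Sum.elim x (Sum.elim (fun e : N => j e) b)) ∘ (Sum.map id Sum.inl) =
      (Sum.elim x (fun e : N => j e)) := by
      funext t; rcases t with t | t <;> rfl
    rw [h1, h2]
    rfl
  obtain ⟨x, hx⟩ := hab θ ((hθ a).2 ⟨had, by
    rw [realize_prodF]
    exact ⟨c, hcd, hm, hφ⟩, hcon⟩)
  obtain ⟨h1, h2, h3⟩ := (hθ _).1 hx
  have h4 : G.dom.Realize x := by
    rw [← (j.comp i).map_formula]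
    exact h1
  let g : G.Pts := ⟨x, h4⟩
  have h5 : shiftL i g φ ∈ q.formulas := by
    rw [← hb]
    change (shiftL i g φ).Realize (Sum.elim b (fun e : N => j e))
    rw [realize_shiftL]
    exact h2
  apply h3
  have h6 := (hχ g).2 h5
  unfold At at h6
  have h7 := (j.map_formula χ _).2 h6
  convert h7 using 1
  funext t; rcases t with t | t <;> rfl

theorem mem_prod {p q r : FS G i} (h : IsProd p q r) {φ χ : L.Formula (Fin G.n ⊕ N)}
    (hχ : IsRep q φ χ) : φ ∈ r.formulas ↔ χ ∈ p.formulas := by
  constructor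
  · exact mem_prod_aux h hχ
  · intro h1
    by_contra h2
    rw [← r.not_mem_iff] at h2
    exact (p.not_mem_iff χ).1 (mem_prod_aux h hχ.not h2) h1

theorem prod_unique (hN : IsSaturated L (Order.succ (Cardinal.mk M)) N) {p q r r' : FS G i}
    (h : IsProd p q r) (h' : IsProd p q r') : r = r' := by
  ext φ
  obtain ⟨χ, hχ⟩ := exists_rep hN q φ
  rw [mem_prod h hχ, mem_prod h' hχ]

/-! ### Existence of products by ultrapowers -/

/-- The diagonal embedding in an ultrapower. -/
noncomputable def diag (L : FirstOrder.Language.{u, v}) {α K : Type*} [L.Structure K]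
    [Nonempty K] (D : Ultrafilter α) : K ↪ₑ[L] (D : Filter α).Product (fun _ => K) where
  toFun b := ((fun _ => b : α → K) : (D : Filter α).Product (fun _ => K))
  map_formula' := by
    intro n φ x
    have := Ultraproduct.realize_formula_cast (u := D) φ (fun k : Fin n => (fun _ : α => x k))
    refine Iff.trans ?_ (this.trans ?_)
    · rfl
    · exact Filter.eventually_const

theorem FS.exists_ultrafilter (p : FS G i) :
    ∃ D : Ultrafilter G.Pts, ∀ φ, φ ∈ p.formulas ↔ ∀ᶠ g in (D : Filter G.Pts), At i g φ := by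
  let S : Set (Set G.Pts) := {U | ∃ φ ∈ p.formulas, U = {g | At i g φ}}
  have hS : (Filter.generate S).NeBot := by
    rw [Filter.generate_neBot_iff]
    intro t ht hfin
    choose! f hf using ht
    obtain ⟨g, hg⟩ := p.exists_pt (f '' t) (by
      rintro _ ⟨U, hU, rfl⟩
      exact (hf hU).1) (hfin.image f)
    refine ⟨g, ?_⟩
    intro U hU
    rw [(hf hU).2]
    exact hg _ ⟨U, hU, rfl⟩
  let D := Ultrafilter.of (Filter.generate S)
  have hD : ∀ φ ∈ p.formulas, ∀ᶠ g in (D : Filter G.Pts), At i g φ := by
    intro φ hφ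
    have : {g | At i g φ} ∈ Filter.generate S :=
      Filter.mem_generate_of_mem ⟨φ, hφ, rfl⟩
    exact Ultrafilter.of_le (Filter.generate S) this
  refine ⟨D, fun φ => ⟨hD φ, fun h => ?_⟩⟩
  by_contra hcon
  rw [← p.not_mem_iff] at hcon
  have h1 := hD _ hcon
  obtain ⟨g, hg1, hg2⟩ := (h.and h1).exists
  exact At_not.1 hg2 hg1

theorem exists_prod [Nonempty M] (p q : FS G i) : ∃ r : FS G i, IsProd p q r := by
  classical
  have hNn : Nonempty N := Nonempty.map i inferInstance
  obtain ⟨Dq, hDq⟩ := q.exists_ultrafilter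
  obtain ⟨Dp, hDp⟩ := p.exists_ultrafilter
  -- the first ultrapower realises `q`
  let N₁ : Type w := (Dq : Filter G.Pts).Product (fun _ => N)
  let j₁ : N ↪ₑ[L] N₁ := diag L Dq
  let b₁ : Fin G.n → N₁ := fun k => ((fun g : G.Pts => i (g.1 k) : G.Pts → N) : N₁)
  have hN₁ : Nonempty N₁ := Nonempty.map j₁ inferInstance
  have hb₁ : ∀ φ : L.Formula (Fin G.n ⊕ N), φ.Realize (Sum.elim b₁ (fun e : N => j₁ e)) ↔
      φ ∈ q.formulas := by
    intro φ
    rw [hDq]
    have := Ultraproduct.realize_formula_cast (u := Dq) φ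
      (Sum.elim (fun k => (fun g : G.Pts => i (g.1 k))) (fun e : N => (fun _ : G.Pts => e)))
    refine Iff.trans (iff_of_eq ?_) (this.trans (iff_of_eq ?_))
    · congr 1
      funext t; rcases t with t | t <;> rfl
    · unfold At
      congr 1
      funext g
      congr 1
      funext t; rcases t with t | t <;> rfl
  -- the second ultrapower realises `p`
  let N₂ : Type w := (Dp : Filter G.Pts).Product (fun _ => N₁)
  let j₂ : N₁ ↪ₑ[L] N₂ := diag L Dp
  let j : N ↪ₑ[L] N₂ := j₂.comp j₁
  let a : Fin G.n → N₂ := fun k => ((fun g : G.Pts => j₁ (i (g.1 k)) : G.Pts → N₁) : N₂)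
  let b : Fin G.n → N₂ := fun k => j₂ (b₁ k)
  have hLos : ∀ φ : L.Formula (Fin G.n ⊕ (N ⊕ Fin G.n)),
      φ.Realize (Sum.elim a (Sum.elim (fun e : N => j e) b)) ↔
        ∀ᶠ g in (Dp : Filter G.Pts), φ.Realize
          (Sum.elim (fun k => j₁ (i (g.1 k))) (Sum.elim (fun e : N => j₁ e) b₁)) := by
    intro φ
    have := Ultraproduct.realize_formula_cast (u := Dp) φ
      (Sum.elim (fun k => (fun g : G.Pts => j₁ (i (g.1 k))))
        (Sum.elim (fun e : N => (fun _ : G.Pts => j₁ e)) (fun k => (fun _ : G.Pts => b₁ k))))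
    refine Iff.trans (iff_of_eq ?_) (this.trans (iff_of_eq ?_))
    · congr 1
      funext t; rcases t with t | t | t <;> rfl
    · congr 1
      funext g
      congr 1
      funext t; rcases t with t | t | t <;> rfl
  have ha : tpOver j a = p.formulas := by
    ext φ
    rw [hDp]
    have h1 := hLos (φ.relabel (Sum.map id Sum.inl))
    rw [Formula.realize_relabel] at h1
    have h2 : (Sum.elim a (Sum.elim (fun e : N => j e) b)) ∘ (Sum.map id Sum.inl) =
      Sum.elim a (fun e : N => j e) := by
      funext t; rcases t with t | t <;> rfl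
    rw [h2] at h1
    refine h1.trans (Filter.eventually_congr (Filter.Eventually.of_forall fun g => ?_))
    rw [Formula.realize_relabel]
    unfold At
    rw [← j₁.map_formula]
    refine iff_of_eq ?_
    congr 1
    funext t; rcases t with t | t <;> rfl
  have hb : tpOver j b = q.formulas := by
    ext φ
    rw [← hb₁, ← j₂.map_formula]
    refine iff_of_eq ?_
    change φ.Realize _ = _
    congr 1
    funext t; rcases t with t | t <;> rfl
  have hab : ∀ φ : L.Formula (Fin G.n ⊕ (N ⊕ Fin G.n)),
      φ.Realize (Sum.elim a (Sum.elim (fun e : N => j e) b)) → ∃ x : G.Pts,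
        φ.Realize (Sum.elim (fun k => j₁ (i (x.1 k))) (Sum.elim (fun e : N => j₁ e) b₁)) := by
    intro φ hφ
    exact ((hLos φ).1 hφ).exists
  have had : G.dom.Realize a := dom_of_tp j a p ha
  have hbd : G.dom.Realize b := dom_of_tp j b q hb
  obtain ⟨c, hcd, hcm⟩ := exists_mul (j.comp i) a b had hbd
  let r : FS G i :=
    { formulas := tpOver j c
      complete := by
        intro φ
        by_cases h : φ.Realize (Sum.elim c (fun e : N => j e))
        · exact Or.inl h
        · exact Or.inr (Formula.realize_not.2 h)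
      concentrated := by
        change (G.dom.relabel Sum.inl).Realize (Sum.elim c (fun e : N => j e))
        rw [Formula.realize_relabel]
        exact hcd
      finSat := by
        intro F hF hfin
        -- the conjunction of the formulas of `F`
        have : Finite F := hfin
        let φ : L.Formula (Fin G.n ⊕ N) := Formula.iInf (fun ψ : F => (ψ : L.Formula _))
        have hφ : ∀ {K : Type w} [L.Structure K] (x : Fin G.n ⊕ N → K),
            φ.Realize x ↔ ∀ ψ ∈ F, ψ.Realize x := by
          intro K _ x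
          simp only [φ]
          rw [Formula.realize_iInf]
          exact ⟨fun h ψ hψ => h ⟨ψ, hψ⟩, fun h ψ => h ψ.1 ψ.2⟩
        have h1 : φ.Realize (Sum.elim c (fun e : N => j e)) := (hφ _).2 fun ψ hψ => hF hψ
        obtain ⟨g, hg⟩ := hab ((prodF G φ).relabel
          (Sum.elim (Sum.elim (fun k => Sum.inl k) (fun k => Sum.inr (Sum.inr k)))
            (fun e => Sum.inr (Sum.inl e)))) (by
              rw [Formula.realize_relabel]
              have h2 : (Sum.elim a (Sum.elim (fun e : N => j e) b)) ∘
                (Sum.elim (Sum.elim (fun k => Sum.inl k) (fun k => Sum.inr (Sum.inr k)))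
                (fun e => Sum.inr (Sum.inl e))) =
                (Sum.elim (Sum.elim a b) (fun e : N => j e)) := by
                funext t; rcases t with (t | t) | t <;> rfl
              rw [h2, realize_prodF]
              exact ⟨c, hcd, hcm, h1⟩)
        rw [Formula.realize_relabel] at hg
        have h3 : (Sum.elim (fun k => j₁ (i (g.1 k))) (Sum.elim (fun e : N => j₁ e) b₁)) ∘
            (Sum.elim (Sum.elim (fun k => Sum.inl k) (fun k => Sum.inr (Sum.inr k)))
            (fun e => Sum.inr (Sum.inl e))) =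
            (Sum.elim (Sum.elim (fun k => j₁ (i (g.1 k))) b₁) (fun e : N => j₁ e)) := by
          funext t; rcases t with (t | t) | t <;> rfl
        rw [h3] at hg
        have h4 : shiftL i g φ ∈ q.formulas := by
          rw [← hb₁, realize_shiftL]
          exact hg
        obtain ⟨h, hh⟩ := q.exists_pt {shiftL i g φ} (by simpa using h4) (by simp)
        have h5 := hh _ rfl
        rw [At_shiftL] at h5
        exact ⟨(g * h).1, (hφ _).1 h5⟩ }
  refine ⟨r, N₂, inferInstance, j, a, b, c, ha, hb, ?_, hcm, rfl⟩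
  intro φ hφ
  obtain ⟨x, hx⟩ := hab φ hφ
  refine ⟨x.1, ?_⟩
  have := (j₂.map_formula φ _).2 hx
  convert this using 1
  funext t; rcases t with t | t | t <;> rfl

end Pool.Agent.Helper77.Tau
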