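import Pool.Agent.Helper77.Tau.Rep

/-!
The semigroup operation, and the main combinatorial argument: if two points of `u ℳ` can not be
separated then some formula has the independence property.
-/

set_option autoImplicit false

universe u v w

open FirstOrder FirstOrder.Language Filter Topology

namespace Pool.Agent.Helper77.Tau

variable {L : FirstOrder.Language.{u, v}} {M N : Type w} [L.Structure M] [L.Structure N]
  {G : DefGroup L M} {i : M ↪ₑ[L] N}

section Op

variable {op : FS G i → FS G i → FS G i}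

theorem mem_op (hop : ∀ p q r, IsProd p q r ↔ r = op p q) {p q : FS G i}
    {φ χ : L.Formula (Fin G.n ⊕ N)} (hχ : IsRep q φ χ) :
    φ ∈ (op p q).formulas ↔ χ ∈ p.formulas :=
  mem_prod ((hop p q (op p q)).2 rfl) hχ

theorem mem_op_ofPt (hN : IsSaturated L (Order.succ (Cardinal.mk M)) N)
    (hop : ∀ p q r, IsProd p q r ↔ r = op p q) {g : G.Pts} {q : FS G i}
    {φ : L.Formula (Fin G.n ⊕ N)} :
    φ ∈ (op (ofPt g) q).formulas ↔ shiftL i g φ ∈ q.formulas := by
  obtain ⟨χ, hχ⟩ := exists_rep hN q φ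
  rw [mem_op hop hχ, mem_ofPt, hχ g]

theorem op_assoc (hN : IsSaturated L (Order.succ (Cardinal.mk M)) N)
    (hop : ∀ p q r, IsProd p q r ↔ r = op p q) (p q r : FS G i) :
    op (op p q) r = op p (op q r) := by
  ext φ
  obtain ⟨χ, hχ⟩ := exists_rep hN r φ
  obtain ⟨ω, hω⟩ := exists_rep hN q χ
  have h1 : IsRep (op q r) φ ω := by
    intro g
    have h2 : IsRep r (shiftL i g φ) (shiftL i g χ) := by
      intro h
      rw [At_shiftL, hχ, shiftL_shiftL]
    rw [mem_op hop h2, hω]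
  rw [mem_op hop hχ, mem_op hop hω, mem_op hop h1]

theorem mem_circ_iff {p : FS G i} {A : Set (FS G i)} {r : FS G i} :
    r ∈ circ op p A ↔ ∀ F F' : Set (L.Formula (Fin G.n ⊕ N)), F.Finite → F'.Finite →
      F ⊆ p.formulas → F' ⊆ r.formulas → ∃ g : G.Pts, ∃ a ∈ A,
        F ⊆ (ofPt g : FS G i).formulas ∧ F' ⊆ (op (ofPt g) a).formulas := by
  classical
  constructor
  · rintro ⟨ι, _, _, _, g, a, ha, h1, h2⟩ F F' hF hF' hFp hFr
    have key : ∀ (f : ι → FS G i) (s : FS G i), Tendsto f atTop (𝓝 s) →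
        ∀ F : Set (L.Formula (Fin G.n ⊕ N)), F.Finite → F ⊆ s.formulas →
        ∀ᶠ k in atTop, F ⊆ (f k).formulas := by
      intro f s hf F hF hFs
      have : ∀ᶠ k in atTop, ∀ φ ∈ F, φ ∈ (f k).formulas := by
        rw [Filter.eventually_all_finite hF]
        intro φ hφ
        rw [TopologicalSpace.tendsto_nhds_generateFrom_iff] at hf
        exact hf _ ⟨φ, rfl⟩ (hFs hφ)
      exact this
    obtain ⟨k, hk1, hk2⟩ := ((key _ _ h1 F hF hFp).and (key _ _ h2 F' hF' hFr)).exists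
    exact ⟨g k, a k, ha k, hk1, hk2⟩
  · intro h
    have h' : ∀ k : Finset {φ // φ ∈ p.formulas} × Finset {φ // φ ∈ r.formulas},
        ∃ g : G.Pts, ∃ a ∈ A, (∀ φ ∈ k.1, φ.1 ∈ (ofPt g : FS G i).formulas) ∧
          (∀ φ ∈ k.2, φ.1 ∈ (op (ofPt g) a).formulas) := by
      intro k
      obtain ⟨g, a, ha, h1, h2⟩ := h (Subtype.val '' (k.1 : Set {φ // φ ∈ p.formulas}))
        (Subtype.val '' (k.2 : Set {φ // φ ∈ r.formulas})) (k.1.finite_toSet.image _)
        (k.2.finite_toSet.image _) (by rintro _ ⟨φ, _, rfl⟩; exact φ.2)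
        (by rintro _ ⟨φ, _, rfl⟩; exact φ.2)
      exact ⟨g, a, ha, fun φ hφ => h1 ⟨φ, hφ, rfl⟩, fun φ hφ => h2 ⟨φ, hφ, rfl⟩⟩
    choose g a ha h1 h2 using h'
    refine ⟨Finset {φ // φ ∈ p.formulas} × Finset {φ // φ ∈ r.formulas}, inferInstance,
      inferInstance, inferInstance, g, a, ha, ?_, ?_⟩
    · rw [TopologicalSpace.tendsto_nhds_generateFrom_iff]
      rintro _ ⟨φ, rfl⟩ hφ
      rw [Filter.mem_atTop_sets]
      refine ⟨({⟨φ, hφ⟩}, ∅), fun k hk => ?_⟩
      exact h1 k ⟨φ, hφ⟩ (hk.1 (Finset.mem_singleton_self _))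
    · rw [TopologicalSpace.tendsto_nhds_generateFrom_iff]
      rintro _ ⟨φ, rfl⟩ hφ
      rw [Filter.mem_atTop_sets]
      refine ⟨(∅, {⟨φ, hφ⟩}), fun k hk => ?_⟩
      exact h2 k ⟨φ, hφ⟩ (hk.2 (Finset.mem_singleton_self _))

theorem circ_mono {p : FS G i} {A B : Set (FS G i)} (h : A ⊆ B) : circ op p A ⊆ circ op p B := by
  intro r hr
  rw [mem_circ_iff] at hr ⊢
  intro F F' h1 h2 h3 h4
  obtain ⟨g, a, ha, h5⟩ := hr F F' h1 h2 h3 h4
  exact ⟨g, a, h ha, h5⟩

theorem circ_union {p : FS G i} {A B : Set (FS G i)} :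
    circ op p (A ∪ B) ⊆ circ op p A ∪ circ op p B := by
  intro r hr
  by_contra hcon
  rw [Set.mem_union, not_or] at hcon
  obtain ⟨hA, hB⟩ := hcon
  rw [mem_circ_iff] at hA hB hr
  push Not at hA hB
  obtain ⟨F1, F1', a1, a2, a3, a4, a5⟩ := hA
  obtain ⟨F2, F2', b1, b2, b3, b4, b5⟩ := hB
  obtain ⟨g, a, ha, h1, h2⟩ := hr (F1 ∪ F2) (F1' ∪ F2') (a1.union b1) (a2.union b2)
    (Set.union_subset a3 b3) (Set.union_subset a4 b4)
  rcases ha with ha | ha
  · exact a5 g a ha (Set.subset_union_left.trans h1) (Set.subset_union_left.trans h2)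
  · exact b5 g a ha (Set.subset_union_right.trans h1) (Set.subset_union_right.trans h2)

/-- For a finite set of formulas in `p * q` there is a finite set of formulas in `p` which
forces them. -/
theorem exists_finite_rep (hN : IsSaturated L (Order.succ (Cardinal.mk M)) N)
    (hop : ∀ p q r, IsProd p q r ↔ r = op p q) (p q : FS G i)
    (F : Set (L.Formula (Fin G.n ⊕ N))) (hF : F.Finite) (hFs : F ⊆ (op p q).formulas) :
    ∃ F' : Set (L.Formula (Fin G.n ⊕ N)), F'.Finite ∧ F' ⊆ p.formulas ∧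
      ∀ s : FS G i, F' ⊆ s.formulas → F ⊆ (op s q).formulas := by
  choose χ hχ using fun φ => exists_rep hN q φ
  refine ⟨χ '' F, hF.image _, ?_, ?_⟩
  · rintro _ ⟨φ, hφ, rfl⟩
    exact (mem_op hop (hχ φ)).1 (hFs hφ)
  · intro s hs φ hφ
    exact (mem_op hop (hχ φ)).2 (hs ⟨φ, hφ, rfl⟩)

theorem circ_circ (hN : IsSaturated L (Order.succ (Cardinal.mk M)) N)
    (hop : ∀ p q r, IsProd p q r ↔ r = op p q) {p q : FS G i} {A : Set (FS G i)} :
    circ op p (circ op q A) ⊆ circ op (op p q) A := by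
  intro r hr
  rw [mem_circ_iff] at hr ⊢
  intro F F' h1 h2 h3 h4
  obtain ⟨F₁, a1, a2, a3⟩ := exists_finite_rep hN hop p q F h1 h3
  obtain ⟨g, b, hb, b1, b2⟩ := hr F₁ F' a1 h2 a2 h4
  have b3 := a3 _ b1
  -- now `F ⊆ g q` and `F' ⊆ g b`
  rw [mem_circ_iff] at hb
  obtain ⟨h, a, ha, c1, c2⟩ := hb (shiftL i g '' F) (shiftL i g '' F') (h1.image _) (h2.image _)
    (by rintro _ ⟨φ, hφ, rfl⟩; exact (mem_op_ofPt hN hop).1 (b3 hφ))
    (by rintro _ ⟨φ, hφ, rfl⟩; exact (mem_op_ofPt hN hop).1 (b2 hφ))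
  refine ⟨g * h, a, ha, ?_, ?_⟩
  · intro φ hφ
    have := c1 ⟨φ, hφ, rfl⟩
    rw [mem_ofPt, At_shiftL] at this
    exact this
  · intro φ hφ
    have := c2 ⟨φ, hφ, rfl⟩
    rw [mem_op_ofPt hN hop, shiftL_shiftL] at this
    rw [mem_op_ofPt hN hop]
    exact this

theorem subset_circ (hN : IsSaturated L (Order.succ (Cardinal.mk M)) N)
    (hop : ∀ p q r, IsProd p q r ↔ r = op p q) {p : FS G i} {A : Set (FS G i)}
    (hA : ∀ a ∈ A, op p a = a) : A ⊆ circ op p A := by
  intro a ha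
  rw [mem_circ_iff]
  intro F F' h1 h2 h3 h4
  obtain ⟨F₁, a1, a2, a3⟩ := exists_finite_rep hN hop p a F' h2 (by rw [hA a ha]; exact h4)
  obtain ⟨g, hg⟩ := p.exists_pt (F ∪ F₁) (Set.union_subset h3 a2) (h1.union a1)
  exact ⟨g, a, ha, fun φ hφ => hg φ (Or.inl hφ), a3 _ fun φ hφ => hg φ (Or.inr hφ)⟩

/-- If two points `x`, `y` of `K` can not be separated then the translates of a formula `φ` which
belongs to `x` and not to `y` shatter arbitrarily large finite subsets of `K`. -/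
theorem shatter_types (hN : IsSaturated L (Order.succ (Cardinal.mk M)) N)
    (hop : ∀ p q r, IsProd p q r ↔ r = op p q) (u : FS G i) (K : Set (FS G i))
    (hK : ∀ k ∈ K, op u k = k) (x y : FS G i) (hx : x ∈ K) (hy : y ∈ K)
    (φ : L.Formula (Fin G.n ⊕ N)) (hφx : φ ∈ x.formulas) (hφy : φ ∉ y.formulas)
    (hns : ∀ F₁ F F' : Set (L.Formula (Fin G.n ⊕ N)), F₁.Finite → F.Finite → F'.Finite →
      F₁ ⊆ u.formulas → F ⊆ x.formulas → F' ⊆ y.formulas →
      ∃ k ∈ K, ∃ g h : G.Pts, F₁ ⊆ (ofPt g : FS G i).formulas ∧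
        F₁ ⊆ (ofPt h : FS G i).formulas ∧ F ⊆ (op (ofPt g) k).formulas ∧
        F' ⊆ (op (ofPt h) k).formulas) (n : ℕ) :
    ∃ (c : Fin n → FS G i) (γ : (Fin n → Bool) → G.Pts), (∀ k, c k ∈ K) ∧ ∀ A,
      shiftL i (γ A) φ ∈ x.formulas ∧ shiftL i (γ A) φ ∉ y.formulas ∧
      ∀ k, shiftL i (γ A) φ ∈ (c k).formulas ↔ A k = true := by
  induction n with
  | zero =>
    have h1 : ∀ p : FS G i, shiftL i 1 φ ∈ p.formulas ↔ φ ∈ p.formulas := by
      intro p
      apply p.mem_iff_of_trace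
      intro g
      rw [At_shiftL, one_mul]
    refine ⟨fun k => k.elim0, fun _ => 1, fun k => k.elim0, fun A => ⟨?_, ?_, fun k => k.elim0⟩⟩
    · rw [h1]; exact hφx
    · rw [h1]; exact hφy
  | succ n ih =>
    obtain ⟨c, γ, hcK, hc⟩ := ih
    -- finite sets of formulas
    let Fx : Set (L.Formula (Fin G.n ⊕ N)) := Set.range fun A => shiftL i (γ A) φ
    let Fy : Set (L.Formula (Fin G.n ⊕ N)) := Set.range fun A => (shiftL i (γ A) φ).not
    have hFx : Fx.Finite := Set.finite_range _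
    have hFy : Fy.Finite := Set.finite_range _
    have hFxx : Fx ⊆ x.formulas := by rintro _ ⟨A, rfl⟩; exact (hc A).1
    have hFyy : Fy ⊆ y.formulas := by
      rintro _ ⟨A, rfl⟩; exact (y.not_mem_iff _).2 (hc A).2.1
    let Fk : Fin n → Set (L.Formula (Fin G.n ⊕ N)) := fun k => Set.range fun A =>
      if A k = true then shiftL i (γ A) φ else (shiftL i (γ A) φ).not
    have hFk : ∀ k, (Fk k).Finite := fun k => Set.finite_range _
    have hFkk : ∀ k, Fk k ⊆ (c k).formulas := by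
      rintro k _ ⟨A, rfl⟩
      simp only
      split_ifs with hA
      · exact ((hc A).2.2 k).2 hA
      · exact ((c k).not_mem_iff _).2 fun h => hA (((hc A).2.2 k).1 h)
    obtain ⟨E1, e1, e1', e1''⟩ := exists_finite_rep hN hop u x Fx hFx (by rw [hK x hx]; exact hFxx)
    obtain ⟨E2, e2, e2', e2''⟩ := exists_finite_rep hN hop u y Fy hFy (by rw [hK y hy]; exact hFyy)
    have h3 : ∀ k, ∃ F' : Set (L.Formula (Fin G.n ⊕ N)), F'.Finite ∧ F' ⊆ u.formulas ∧
        ∀ s : FS G i, F' ⊆ s.formulas → Fk k ⊆ (op s (c k)).formulas := fun k =>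
      exists_finite_rep hN hop u (c k) (Fk k) (hFk k) (by rw [hK (c k) (hcK k)]; exact hFkk k)
    choose E e3 e3' e3'' using h3
    obtain ⟨k₀, hk₀, g, h, g1, h1, g2, h2⟩ := hns (E1 ∪ E2 ∪ ⋃ k, E k) Fx Fy
      ((e1.union e2).union (Set.finite_iUnion e3)) hFx hFy
      (Set.union_subset (Set.union_subset e1' e2') (Set.iUnion_subset e3')) hFxx hFyy
    -- both `g` and `h` act on the old points as the neutral element
    have key : ∀ t : G.Pts, (E1 ∪ E2 ∪ ⋃ k, E k) ⊆ (ofPt t : FS G i).formulas → ∀ A : Fin n → Bool,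
        shiftL i (γ A * t) φ ∈ x.formulas ∧ shiftL i (γ A * t) φ ∉ y.formulas ∧
        ∀ k, shiftL i (γ A * t) φ ∈ (c k).formulas ↔ A k = true := by
      intro t ht A
      have t1 : E1 ⊆ (ofPt t : FS G i).formulas := fun ψ hψ => ht (Or.inl (Or.inl hψ))
      have t2 : E2 ⊆ (ofPt t : FS G i).formulas := fun ψ hψ => ht (Or.inl (Or.inr hψ))
      have t3 : ∀ k, E k ⊆ (ofPt t : FS G i).formulas := fun k ψ hψ =>
        ht (Or.inr (Set.mem_iUnion.2 ⟨k, hψ⟩))
      refine ⟨?_, ?_, fun k => ?_⟩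
      · have := e1'' _ t1 ⟨A, rfl⟩
        rw [mem_op_ofPt hN hop, shiftL_shiftL] at this
        exact this
      · have := e2'' _ t2 ⟨A, rfl⟩
        rw [FS.not_mem_iff, mem_op_ofPt hN hop, shiftL_shiftL] at this
        exact this
      · have := e3'' k _ (t3 k) ⟨A, rfl⟩
        simp only at this
        split_ifs at this with hA
        · rw [mem_op_ofPt hN hop, shiftL_shiftL] at this
          exact ⟨fun _ => hA, fun _ => this⟩
        · rw [FS.not_mem_iff, mem_op_ofPt hN hop, shiftL_shiftL] at this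
          exact ⟨fun h => absurd h this, fun h => absurd h hA⟩
    refine ⟨Fin.snoc c k₀, fun A => if A (Fin.last n) = true then
      γ (fun k => A k.castSucc) * g else γ (fun k => A k.castSucc) * h, ?_, ?_⟩
    · intro k
      refine Fin.lastCases ?_ (fun k => ?_) k
      · rw [Fin.snoc_last]; exact hk₀
      · rw [Fin.snoc_castSucc]; exact hcK k
    · intro A
      by_cases hA : A (Fin.last n) = true
      · simp only [hA, if_true]
        obtain ⟨a1, a2, a3⟩ := key g g1 (fun k => A k.castSucc)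
        refine ⟨a1, a2, fun k => ?_⟩
        refine Fin.lastCases ?_ (fun k => ?_) k
        · rw [Fin.snoc_last]
          have := g2 ⟨fun k => A k.castSucc, rfl⟩
          rw [mem_op_ofPt hN hop, shiftL_shiftL] at this
          exact ⟨fun _ => hA, fun _ => this⟩
        · rw [Fin.snoc_castSucc]; exact a3 k
      · simp only [hA]
        obtain ⟨a1, a2, a3⟩ := key h h1 (fun k => A k.castSucc)
        refine ⟨a1, a2, fun k => ?_⟩
        refine Fin.lastCases ?_ (fun k => ?_) k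
        · rw [Fin.snoc_last]
          have := h2 ⟨fun k => A k.castSucc, rfl⟩
          rw [FS.not_mem_iff, mem_op_ofPt hN hop, shiftL_shiftL] at this
          exact ⟨fun h => absurd h this, fun h => absurd h hA⟩
        · rw [Fin.snoc_castSucc]; exact a3 k

end Op

/-- The points can be chosen in `G(M)`. -/
theorem shatter_points (φ : L.Formula (Fin G.n ⊕ N)) (n : ℕ)
    (c : Fin n → FS G i) (γ : (Fin n → Bool) → G.Pts)
    (h : ∀ A k, shiftL i (γ A) φ ∈ (c k).formulas ↔ A k = true) :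
    ∃ d : Fin n → G.Pts, ∀ A k, At i (γ A * d k) φ ↔ A k = true := by
  have h1 : ∀ k, ∃ d : G.Pts, ∀ A : Fin n → Bool, At i (γ A * d) φ ↔ A k = true := by
    intro k
    obtain ⟨d, hd⟩ := (c k).exists_pt (Set.range fun A : Fin n → Bool =>
      if A k = true then shiftL i (γ A) φ else (shiftL i (γ A) φ).not) (by
        rintro _ ⟨A, rfl⟩
        simp only
        split_ifs with hA
        · exact (h A k).2 hA
        · exact ((c k).not_mem_iff _).2 fun h' => hA ((h A k).1 h')) (Set.finite_range _)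
    refine ⟨d, fun A => ?_⟩
    have := hd _ ⟨A, rfl⟩
    simp only at this
    split_ifs at this with hA
    · rw [At_shiftL] at this
      exact ⟨fun _ => hA, fun _ => this⟩
    · rw [At_not, At_shiftL] at this
      exact ⟨fun h => absurd h this, fun h => absurd h hA⟩
  choose d hd using h1
  exact ⟨d, fun A k => hd k A⟩

end Pool.Agent.Helper77.Tau
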